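import Pool.Agent.X297.BT.Hodge

/-!
# Full faithfulness of the Hodge realization on the tensor category generated by a variety of CM type

Let `X` be a smooth projective variety of CM type (its Mumford-Tate group is commutative). Suppose
that the complex cohomology algebra of `X` is generated by `f` homogeneous elements all of whose
conjugates are of pure types `(p, q)` with `|p - q| ≤ c`; one can always take for `f` the total Betti
number and `c = dim X`. Put `N = f ^ 2 (f max(c, 1)) ^ f`.

If all Hodge classes on `X, X², …, X^N` are absolute Hodge classes, then all Hodge classes on all
powers of `X` are absolute Hodge classes: the realization functor is fully faithful on the tensor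
category generated by the motive of `X`, since the morphisms between `(X^a, p, m)` and `(X^b, q, n)`
are classes on `X^(a + b)`.

In the formal statement the spans of the absolute Hodge classes are replaced by any system of
subalgebras which is stable under pull-backs (`ClassSystem`).
-/

open CategoryTheory AlgebraicGeometry

universe u v w

namespace Pool.Agent.Results.MP_0da4e0_ag.BoundedPowersCM

open Pool.Agent.H914 Pool.Agent.H914.VarClass Pool.Agent.H914.VarClass.Obj
  Pool.Agent.H914.WeilCohomology Pool.Agent.X297.CM Pool.Agent.X297.BT
open Pool.Agent.Y129 (pw)

theorem result {k : Type u} [Field k] {𝒱 : VarClass k} {ops : CycleOps 𝒱}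
    (W : WeilCohomology.{u, v} ops) {Γ : Type w} [Group Γ] (D : Decomposition W)
    (A : CoeffAction W Γ) (P : ClassSystem W) (X : 𝒱.Obj) :
    (∀ f c, IsHGeneratedBy D A X f c →
      (∀ m < hodgeBound f c, HodgeIn D A P (pw X m)) → ∀ n, HodgeIn D A P (pw X n)) ∧
    (IsCMType D A X → IsHGeneratedBy D A X (Module.finrank W.K (W.H X)) X.dim) :=
  hodge_main P

end Pool.Agent.Results.MP_0da4e0_ag.BoundedPowersCM
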