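import Pool.Agent.X227.UP.Full

/-!
# Full faithfulness of the Hodge realization: only finitely many factors matter

Let `k` be an algebraically closed field with an embedding into `ℂ`, and let `W` be the cohomology of
the complex manifolds of smooth projective varieties over `k` with complex coefficients, with its
rational Hodge structures (`HodgeData`) and its comparison with the cohomology for the other
embeddings (`Embeddings`), which defines the absolute Hodge classes and the motives `(Y, p, m)` for
absolute Hodge cycles (`IsAbsOp`).

Let `Z` be ANY variety and `X i` any family of odd-dimensional varieties, which may be infinite, such
that homological and numerical equivalence coincide on `X i`, the transcendental cohomology `T i` of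
`X i` (the orthogonal complement of the algebraic classes) is concentrated in the middle degree and
not zero, the Mumford-Tate group acts irreducibly on the Lie algebra of the skew operators on `T i`
(it is the symplectic group up to scalars; examples: general complete intersections of odd
dimension, general curves), and these representations are pairwise not isomorphic.

For a set `S` of indices let `generated Z X S` be the class of all products of copies of `Z` and of
the `X i` with `i ∈ S` (with at least one copy of `Z`); the motives `(Y, p, m)` with `Y` in this class
are, up to finite direct sums, all motives in the tannakian subcategory `⟨h(Z), h(X i), i ∈ S⟩` of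
the category `ℳ_k` of motives.

The theorem: there is ONE finite set `B` of indices, with
`∑_{i ∈ B} (dim T i) (dim T i + 1) / 2 ≤ (dim H(Z)) ^ 2`, such that for EVERY set `S` of indices the
Hodge realization is fully faithful on the motives of the varieties in `generated Z X S` if and only
if it is fully faithful on the motives of the varieties in `generated Z X (S ∩ B)`. In particular the
question for the subcategory generated by `Z` and all (infinitely many) `X i` is the question for
the subcategory which is generated by `Z` and the finitely many `X i` with `i ∈ B`. Moreover no
`i ∈ B` is separated from `Z` by Hodge types (`TypeSep`).

The idea of the proof: if the factor `X i` matters for some power of `Z` then its adjoint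
representation `sp(T i)` acts by derivations of the algebra `H(Z^(n+1))`, which can be chosen to
commute with all endomorphisms of `Z^(n+1)`, in particular with the permutations of the factors; so
they are determined by their restriction to the cohomology of one factor `Z`. These restrictions are
Hodge substructures of `End H(Z)`, and they are linearly independent for the different `i`.
-/

open CategoryTheory AlgebraicGeometry

universe u

namespace Pool.Agent.Results.MP_0da4e0_ag.FinitelyManyFactors

open Pool.Agent.H914 Pool.Agent.H914.VarClass Pool.Agent.H914.VarClass.Obj Pool.Agent.Y132.AH
  Pool.Agent.X227.UP

variable {k : Type u} [Field k] {𝒱 : VarClass k} {ops : CycleOps 𝒱}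

theorem result (W : WeilCohomology.{u, 0} ops) [IsAlgClosed W.K] (Ψ : HodgeData W)
    (E : Embeddings W) {ι : Type} [DecidableEq ι] (X : ι → 𝒱.Obj) (hX : SpFamily Ψ X)
    (Z : 𝒱.Obj) :
    ∃ B : Finset ι, ∑ i ∈ B, (trDim W (X i) + 1).choose 2 ≤ totDim W Z ^ 2 ∧
      (∀ i ∈ B, ¬TypeSep Ψ (X i) Z) ∧
      ∀ S : Set ι, FullyFaithfulOn Ψ E (generated Z X S) ↔
        FullyFaithfulOn Ψ E (generated Z X (S ∩ {i | i ∈ B})) :=
  full_uniform Ψ E Z hX

end Pool.Agent.Results.MP_0da4e0_ag.FinitelyManyFactors
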