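import Pool.Agent.X259.U.U29
import Pool.Agent.X259.U.U31

set_option autoImplicit false

/-!
# The Hodge realization is fully faithful on the powers of a variety if more than half of the Hodge
# classes on one power are absolute Hodge

Let `X` be a smooth projective variety over the algebraically closed field `k` (connected, of
dimension `d`), let `σ` be an embedding of `k` in `ℂ`, and `V = H^*(σX(ℂ), ℚ)` (all degrees together),
with the Hodge decomposition `H p q`, the operator of parity `ε` (`(-1) ^ i` on `H^i`), and the
Poincaré form `P (x, y) = ∫ x ∪ y`; `one` is the unit of `V`, and `point` is the class of a point; `Q`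
is a polarization. Let `n = dim V` be the sum of the Betti numbers of `X`, and let `w ≥ 1` be such that
`|p - q| ≤ w` for all `(p, q)` with `H p q ≠ 0`, for example `w = max (d, 1)`.

By the Künneth formula and Poincaré duality, a class `t` in `H^*(σX ^ N, ℚ)` is the same thing as a
multilinear form `ψ` in `N` variables in `V` (`Cls V N`), the form
`(v 1, …, v N) ↦ ∫ t ∪ (v 1 × ⋯ × v N)`; `t` is a Hodge class (a sum of Hodge classes of various
degrees) if and only if `ψ` is a Hodge form (`IsHodgeClass`).

**Absolute Hodge classes.** A conjugate of `σX` is given by `V' = H^*(X', ℚ)` with its Hodge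
decomposition `H'`, its operator of parity `ε'`, and a comparison map `c : K ⊗ V → K ⊗ V'`, where `K`
is a commutative `ℚ`-algebra with an automorphism (`Conjugate`, `IsConjugate`), which is called `σ`
in the Lean text, and `s` here. The classes `t`, `t'` on `σX ^ N`, `X' ^ N` are conjugate if
`ψ' (c x 1, …, c x N) = s (ψ (x 1, …, x N))` (`AreConjugate`). For example:

* `K = ℂ`, `s` an automorphism of `ℂ`, `X' = (σX) ^ s = (s ∘ σ) X`, and `c = λ ^ i c₀` on `H^i`, where
  `c₀` is the base change `H^i_dR(σX) → H^i_dR(X')` in algebraic de Rham cohomology, and `λ` is a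
  square root of `s(2πi)/(2πi)`. Since `∫` is `(2πi) ^ d` times the algebraic trace, a rational
  class `t` in `H^{2p}(σX ^ N, ℚ)` and `t'` are conjugate in the sense above if and only if
  `s_dR ((2πi) ^ p t) = (2πi) ^ p t'`.
* In the same way `K = 𝔸_f[λ]/(λ ^ 2 - χ(s))`, with the identity, and étale cohomology, where `χ(s)` is
  the cyclotomic character;
* the product of these two rings `K`, for the condition with de Rham and étale components
  at the same time.

A class is absolute Hodge (`IsAbsoluteHodge`) if it is a Hodge class and has a conjugate Hodge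
class on `X' ^ N` for all conjugates `X'` in the given set `S`. If `S` is given by all automorphisms
of `ℂ`, then these are the absolute Hodge classes of `X` over `k`, since `k` is algebraically closed
(Deligne). The diagonal, the fundamental class and the class of a point are algebraic, hence
absolute Hodge, and for a polarization `Q` given by the hard Lefschetz theorem the class of `Q` on
`X × X` is absolute Hodge (Deligne: the inverse of the Lefschetz operator and the projections of
the primitive decomposition are absolute Hodge); these are the hypotheses `StandardClasses`.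

Let `⟨X⟩` be the category of the motives `h(X ^ a)(i)`, `a ≥ 0`, for absolute Hodge cycles (a tensor
category; with direct sums and direct summands, it is the tensor category generated by `h(X)` and the
Tate motive). The morphisms `h(X ^ a)(i) → h(X ^ b)(j)` are absolute Hodge classes on `X ^ (a + b)`,
and the morphisms of the Hodge structures are Hodge classes on `X ^ (a + b)`; so the Hodge realization
is fully faithful on `⟨X⟩` if and only if all Hodge classes on all powers of `X` are absolute Hodge.

**Theorem.** We say that a *majority* of the Hodge classes on `X ^ (2 m)` is absolute Hodge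
(`Majority`) if the proportion is at least `1/2 + 1/(2 m + 2)`.

1. **Small powers, with a polynomial bound.** Let `r ≥ 1` and
   `m ≥ 64 n ^ 3 r ^ 2 (⌊log₂ (4 n r)⌋ + 1)`. If a majority of the Hodge classes on `X ^ (2 m)` is
   absolute Hodge then all Hodge classes on `X ^ N` are absolute Hodge for all `N ≤ 2 r`, that is,
   the realization is fully faithful on the motives `h(X ^ a)(i)`, `a ≤ r`. For example (`r = 1`),
   the realization is fully faithful on the motives `h(X)(i)`, and all Hodge classes on `X` are
   absolute Hodge, if 51 percent of the Hodge classes on `X ^ (2 m)` are absolute Hodge for one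
   `m ≥ 64 n ^ 3 (⌊log₂ n⌋ + 3)`, where `n` is the sum of the Betti numbers of `X`.
2. **All powers.** Let `m ≥ (2 n w) ^ (8 n + 13)` be one integer; if the centre of the algebra of
   endomorphisms of the Hodge structure `V` (with Tate twists) contains no element `f ≠ 0` with
   `Q (f u, v) = - Q (u, f v)`, `m ≥ 128 n ^ 3 (⌊log₂ (2 n)⌋ + 1)` is sufficient. The following are
   equivalent: the Hodge realization is fully faithful on the tensor category generated by `h(X)`
   (all Hodge classes on all powers of `X` are absolute Hodge); all Hodge classes on the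
   one variety `X ^ (2 m)` are absolute Hodge, that is, all endomorphisms of the Hodge structure
   `H^*(X ^ m)` (with twists) are morphisms of motives; a majority of the Hodge classes on
   `X ^ (2 m)` is absolute Hodge.

So either the realization is fully faithful on the motives `h(X ^ a)(i)`, `a ≤ r`, or for all `m` as
in 1 less than 51 percent of the Hodge classes on `X ^ (2 m)` are absolute Hodge. This is true for
every `X`, without a conjecture.

The proof. The absolute Hodge classes form a cycle family (`ah_cycle` in `X259/U/U29.lean`): they are stable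
under exchanges of factors, exterior products, and the inverse image under the diagonal followed by
the direct image; the conjugate of the Poincaré form is nondegenerate, since `c` is
bijective, and its inverse is the conjugate of the inverse of the Poincaré form. Then the theorem is
proved for all cycle families which contain the class of `Q`, as follows.
The forms on `V × V` all of whose components are Hodge classes, or are in
the family, are the invariants of compact groups `G' ⊆ G` in `GL (2 n)` (first fundamental
theorem for the symplectic group, Haar integration; `V × V` has a structure of the homology of an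
abelian variety). If there is a Hodge form `F ≠ 0` of degree at most `D` which is orthogonal to the
invariants of `G` then the mean value of `⟨q F, F⟩` over `G` is zero, and there is `q` in `G` such that
its real part is not positive; then every element of the coset `q G'` has an eigenvalue with
an argument of absolute value at least `π / (2 D)`. This is used for 1 with `D = 2 r`. For 2 we take
`D` such that the Lie algebra of `G'` is the annihilator of the Hodge forms of degree at most
`D`: `D = 4` if the centre has no skew elements, and `D = 8 n (4 n ^ 2 w) ^ {2 n}` in general. If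
`G' ≠ G` and the forms of degree at most `D` are invariant under `G` then the coset of each
element `q` of `G`, not in `G'`, has the same property. So the traces of the elements
of `q G'` are at most `c = 2 n - 2 (1 - cos (π / (2 D)))`. Let `E` and `E'` be the projectors onto the
invariants of `G` and `G'` of degree `2 m`. The trace of `q E'` is the mean value of `tr (q g) ^ {2 m}`
for `g` in `G'`, and is at most `c ^ {2 m}`; on the other hand, `q E = E`, and the trace of
`q (E' - E)` is at least `- tr (E' - E)`. Hence `2 tr E ≤ tr E' + c ^ {2 m}`. Finally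
`tr E' ≥ (2 n) ^ {2 m} / (m + 1) ^ {4 n ^ 2}`, since the functions `tr (q g) ^ m` of `g` span a space of
dimension at most `(m + 1) ^ {4 n ^ 2}`.
-/

noncomputable section

namespace Pool.Agent.Results.MP_0da4e0_ag.HalfOfTheMorphisms

open Module Pool.Agent.X259.HS

open scoped TensorProduct

variable {V : Type} [AddCommGroup V] [Module ℚ V]

/-- The space of the Hodge classes on `X ^ N`. -/
def HodgeClasses (H : ℤ → ℤ → Submodule ℂ (ℂ ⊗[ℚ] V)) (N : ℕ) : Submodule ℚ (Cls V N) where
  carrier := {ψ | IsHodgeClass H ψ}
  add_mem' h h' := Pool.Agent.X259.U.hodge_add h h'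
  zero_mem' := Pool.Agent.X259.U.hodge_zero
  smul_mem' c _ h := Pool.Agent.X259.U.hodge_smul c h

/-- The space of the absolute Hodge classes on `X ^ N`. -/
def AbsoluteHodgeClasses (H : ℤ → ℤ → Submodule ℂ (ℂ ⊗[ℚ] V)) {κ : Type} (S : κ → Conjugate V)
    (N : ℕ) : Submodule ℚ (Cls V N) where
  carrier := {ψ | IsAbsoluteHodge H S ψ}
  add_mem' h h' := Pool.Agent.X259.U.ah_add h h'
  zero_mem' := Pool.Agent.X259.U.ah_zero
  smul_mem' c _ h := Pool.Agent.X259.U.ah_smul c h

/-- All Hodge classes on `X ^ N` are absolute Hodge. -/
def HodgeIsAbsolute (H : ℤ → ℤ → Submodule ℂ (ℂ ⊗[ℚ] V)) {κ : Type} (S : κ → Conjugate V)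
    (N : ℕ) : Prop :=
  ∀ ψ : Cls V N, IsHodgeClass H ψ → IsAbsoluteHodge H S ψ

/-- The class of the diagonal `P`, the fundamental class, the class of a point, and the class of
the polarization `Q` are absolute Hodge. -/
structure StandardClasses (H : ℤ → ℤ → Submodule ℂ (ℂ ⊗[ℚ] V)) (P Q : LinearMap.BilinForm ℚ V)
    (one point : V) {κ : Type} (S : κ → Conjugate V) : Prop where
  diagonal : ∀ ψ : Cls V 2, (∀ v, ψ v = P (v 0) (v 1)) → IsAbsoluteHodge H S ψ
  fundamental : ∀ ψ : Cls V 1, (∀ v, ψ v = P (v 0) one) → IsAbsoluteHodge H S ψ
  point : ∀ ψ : Cls V 1, (∀ v, ψ v = P point (v 0)) → IsAbsoluteHodge H S ψ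
  polarization : ∀ ψ : Cls V 2, (∀ v, ψ v = Q (v 0) (v 1)) → IsAbsoluteHodge H S ψ

/-- The centre of the algebra of endomorphisms of the Hodge structure contains no skew element
except zero. -/
def NoSkewCentre (H : ℤ → ℤ → Submodule ℂ (ℂ ⊗[ℚ] V)) (Q : LinearMap.BilinForm ℚ V) : Prop :=
  ∀ f : V →ₗ[ℚ] V, IsHodgeEndo H f → (∀ f' : V →ₗ[ℚ] V, IsHodgeEndo H f' → f ∘ₗ f' = f' ∘ₗ f) →
    (∀ u v, Q (f u) v = -Q u (f v)) → f = 0

/-- A majority of the Hodge classes on `X ^ (2 m)` is absolute Hodge: the proportion is at least
`1/2 + 1/(2 m + 2)`. -/
def Majority (H : ℤ → ℤ → Submodule ℂ (ℂ ⊗[ℚ] V)) {κ : Type} (S : κ → Conjugate V) (m : ℕ) : Prop :=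
  (m + 2) * finrank ℚ (HodgeClasses H (2 * m)) ≤
    (2 * m + 2) * finrank ℚ (AbsoluteHodgeClasses H S (2 * m))

/-- **If more than half of the Hodge classes on one power are absolute Hodge then all Hodge
classes on small powers, and on all powers, are absolute Hodge.** -/
theorem result [FiniteDimensional ℚ V] (n w : ℕ) (hw : 1 ≤ w) (hV : finrank ℚ V = n)
    -- the Hodge structure, the operator of parity and a polarization
    (H : ℤ → ℤ → Submodule ℂ (ℂ ⊗[ℚ] V)) (ε : V →ₗ[ℚ] V) (hH : IsHodgeStructure H ε)
    (Q : LinearMap.BilinForm ℚ V) (hQ : IsPolarization H ε Q)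
    (hHw : ∀ p q : ℤ, H p q ≠ ⊥ → |p - q| ≤ w)
    -- the Poincaré form, the fundamental class and the class of a point
    (P : LinearMap.BilinForm ℚ V) (one point : V) (hP : IsPoincare ε P one point)
    -- the conjugates
    (κ : Type) (S : κ → Conjugate V) (hS : ∀ i, IsConjugate ε (S i))
    (hstd : StandardClasses H P Q one point S) :
    (∀ r m : ℕ, 1 ≤ r → 64 * n ^ 3 * r ^ 2 * (Nat.log 2 (4 * n * r) + 1) ≤ m →
      Majority H S m → ∀ N ≤ 2 * r, HodgeIsAbsolute H S N) ∧
    (∀ m : ℕ, (2 * n * w) ^ (8 * n + 13) ≤ m ∨
        NoSkewCentre H Q ∧ 128 * n ^ 3 * (Nat.log 2 (2 * n) + 1) ≤ m →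
      List.TFAE [
        ∀ N : ℕ, HodgeIsAbsolute H S N,
        HodgeIsAbsolute H S (2 * m),
        Majority H S m]) := by
  subst hV
  have hε : (ε : Module.End ℚ V) * ε = 1 := by
    obtain ⟨vB, kk, hmem, hr⟩ := Pool.Agent.X259.U.exists_adapted hH.internal
    exact LinearMap.ext
      (Pool.Agent.X259.U.hd_of (Module.finBasis ℚ V) hmem hr hH hQ).eps2
  have hA : IsCycleFamily H ε P one point (AbsoluteHodgeClasses H S) :=
    Pool.Agent.X259.U.ah_cycle hH hS hε hP hstd.diagonal hstd.fundamental hstd.point
      fun N ψ => Iff.rfl
  have hdiag := hstd.diagonal (Pool.Agent.X259.U.bil P) fun v => rfl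
  have hεA : Pool.Agent.X259.U.bil (LinearMap.comp P ε) ∈ AbsoluteHodgeClasses H S 2 := by
    have h1 := Pool.Agent.X259.U.ah_ap hH hS (0 : Fin 2) hdiag
    have h2 : Pool.Agent.X259.U.ap (0 : Fin 2) ε (Pool.Agent.X259.U.bil P) =
        Pool.Agent.X259.U.bil (LinearMap.comp P ε) := by
      ext v
      rw [Pool.Agent.X259.U.ap_apply, Pool.Agent.X259.U.bil_apply, Pool.Agent.X259.U.bil_apply]
      rfl
    rw [h2] at h1
    exact h1
  have hQA : Pool.Agent.X259.U.bil Q ∈ AbsoluteHodgeClasses H S 2 :=
    hstd.polarization (Pool.Agent.X259.U.bil Q) fun v => rfl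
  refine ⟨fun r m hr hm h N hN => Pool.Agent.X259.U.low_powers hA hP hH hQ hεA hQA hr hm
    (B := HodgeClasses H (2 * m)) (fun ψ => Iff.rfl) h hN, fun m hm => ?_⟩
  tfae_have 1 → 2 := fun h => h (2 * m)
  tfae_have 2 → 3 := fun h =>
    Nat.mul_le_mul (by omega) (Submodule.finrank_mono fun ψ hψ => h ψ hψ)
  tfae_have 3 → 1 := fun h N => Pool.Agent.X259.U.half_powers hA hP hH hQ hεA hQA hw hHw hm
    (B := HodgeClasses H (2 * m)) (fun ψ => Iff.rfl) h N
  tfae_finish

end Pool.Agent.Results.MP_0da4e0_ag.HalfOfTheMorphisms
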