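import Pool.Agent.X120.BM.Lew

/-!
# Full faithfulness of the Hodge realization on the tensor category generated by all abelian motives (and by all other
# motives of small level) and by the motives of the fibres over `b_i^(-t_i)` of families of Calabi-Yau type

Let `V_i`, `1 ≤ i ≤ k`, be variations of Hodge structure with `h^{w_i, 0} = 1` (of Calabi-Yau type) over the projective line without finitely many points, which come from families over `ℚ`, with a
nondegenerate alternating form, such that the monodromy group is dense in a symplectic group. The fibre over `x = 0` may be smooth or degenerate: we suppose that near `x = 0` the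
period matrix is `L_i(log (1/x)) P_i(x)`, where the entries of `P_i` are polynomials with any complex coefficients in a system of G-functions with rational coefficients which are solutions of a
differential system with a regular singularity with rational exponents at infinity, and the entries of `L_i(u)` are polynomials. Let `M_i` be the motive with realisation `V_i` over the rational
point `b_i^(-t_i)`.

Let `k` be an algebraically closed field with an embedding `σ`, `M_0` a motive over `k`, with Betti realisation `V_0` of dimension `n_0` and Hodge operator `Φ_0` (multiplication by `p` on `H^{p,q}`). We suppose that no two Hodge numbers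
`p, p'` of `V_0` differ by one of the `w_i`. For `w_i ≥ 3` this is so if `M_0` is a sum of motives `h(Y)`, `Y` a curve, a surface or `h^1`, `h^2` of any variety, in particular of an abelian variety (and the `h^1` of abelian varieties and the
Artin motives generate the category `ℳ_k^{av}`).

For the other embeddings `ρ` (and for `σ`) let `Φ_0^ρ` be the Hodge operator of `ρ M_0`. The comparison isomorphisms with étale cohomology, and with de Rham cohomology, are given on rational classes by matrices over fields `K_λ` (`ℚ_ℓ` for all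
`ℓ`, and `ℂ`): `g_0(ρ, λ)` for `V_0` and `g_i(ρ, λ)` for `V_i` (the `M_i` are defined over `ℚ`); they respect the polarisations up to the factor `χ^(w_i)`, where `χ` is given by the Tate motive.
A Hodge form `T` is absolute Hodge if for every `ρ` there is a Hodge form `T'` for `ρ` which has the image of `T` (up to the factor `χ^c` for the twist) as its image for all `λ`. The morphisms between tensor products of twists of direct factors of
`M_0`, `M_i` are given by such forms (the duals of pure motives are isomorphic to twists of the motives because of the polarisations, so that duals are not needed).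

**Theorem.** Let `b_i ≥ 2` be integers. There is a constant `C`, which depends only on the G-functions, the ranks, the degrees `e` of the polynomials and the `b_i`, such that for all such
`V_i`, for all but `C N^(k-1) log N` of the `N^k` points `x = (b_1^(-t_1), …, b_k^(-t_k))`, `1 ≤ t_i ≤ N` (for `k = 1` for all but `C log N` of the points `b^(-t)`), for ALL motives `M_0` over all fields, of any rank, which satisfy the condition on
the Hodge numbers: the Hodge forms on `V_0^r × V_(τ(1)) × … × V_(τ(m))` are the combinations of products of Hodge forms on `V_0^r` and of polarisations; they are all absolute Hodge if and only if the Hodge forms on the `V_0^r` are absolute Hodge.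

So for these points (the same points for all `M_0`) the Hodge realization is fully faithful on the tensor category generated by a category `𝒞` of motives with Hodge numbers of this kind and by `M_1, …, M_k`, if and only if it is fully faithful on the tensor category generated by `𝒞`.
For `w_i ≥ 3` and `𝒞` the abelian varieties this is known by Deligne's theorem: the realization is fully faithful on the tensor category generated by `ℳ_k^{av}` and by `M_1, …, M_k`, for every `k` and `σ`.
Earlier results of this kind (also `MP_e2e4f5_ag.BigMonodromyTimesVariety`, `MP_c77f96_ag.NumberFieldTimesFibres`) are for one variety, with a set of exceptional points which depends on the variety.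

Proof. By the counting theorem on geometric sequences, a rational Lie algebra whose complexification contains the Hodge operators of the `V_i` contains `∏ sp(V_i)` for these points (`Pool.Agent.X120.HG`, `Pool.Agent.X120.BM`). Let `V` be a rational Lie algebra whose
complexification contains `(Φ_0, Φ_1, …, Φ_k)`. It contains an element `(Y, e_i)` with the highest weight vector `e_i` of `sp(V_i)`, of type `(w_i, -w_i)`, and there is no part of this type in `gl(V_0)`, so that `(0, e_i)` is in `V`; since the Lie
algebra `sp(V_i)` is simple it is contained in `V` (`rg_level`). Then one uses the first fundamental theorem for symplectic Lie algebras.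
-/

set_option autoImplicit false

open Pool.Agent.X120.BM

namespace Pool.Agent.Results.MP_0da4e0_ag.SmallLevelAndFibresAtPowers

section
variable {n₀ k : ℕ} {n : Fin k → ℕ} {R Λ : Type} {K : Λ → Type} [∀ l, Field (K l)] [∀ l, Algebra ℚ (K l)]

/-- The comparison isomorphisms over the fields `K_λ` between the rational structures for `σ` and for the embeddings `ρ ∈ R`; `g_i` respects the form `A_i` up to the
factor `χ^(w_i)`. -/
structure Comparison (n₀ : ℕ) (R : Type) {Λ : Type} (K : Λ → Type) [∀ l, Field (K l)] [∀ l, Algebra ℚ (K l)] (w : Fin k → ℕ)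
    (A : ∀ i, Matrix (Fin (n i)) (Fin (n i)) ℚ) where
  g₀ : R → ∀ l, Matrix (Fin n₀) (Fin n₀) (K l)
  g : R → ∀ l, ∀ i, Matrix (Fin (n i)) (Fin (n i)) (K l)
  χ : R → ∀ l, K l
  ne : ∀ ρ l, χ ρ l ≠ 0
  respects : ∀ ρ l i, g ρ l i * (A i).map (algebraMap ℚ (K l)) * (g ρ l i).transpose =
    χ ρ l ^ w i • (A i).map (algebraMap ℚ (K l))

variable {w : Fin k → ℕ} {A : ∀ i, Matrix (Fin (n i)) (Fin (n i)) ℚ}

/-- The form `v` of type `q` on `V_0^r` is absolute Hodge: for every `ρ` there is a Hodge form `v'` such that `g₀(ρ, λ)` maps `v` to `χ^q v'` for all `λ`. -/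
def IsAbsolute₀ (Φ₀ : R → Matrix (Fin n₀) (Fin n₀) ℂ) (g : Comparison n₀ R K w A) {r : ℕ} (q : ℤ) (v : (Fin r → Fin n₀) → ℚ) : Prop :=
  ∀ ρ, ∃ v' : (Fin r → Fin n₀) → ℚ, IsHodgeForm₀ (Φ₀ ρ) q v' ∧
    ∀ l, transport₀ (g.g₀ ρ l) (castForm₀ (K l) v) = g.χ ρ l ^ q • castForm₀ (K l) v'

/-- The form `T` of type `c` on `V_0^r × V_(τ(1)) × … × V_(τ(m))` is absolute Hodge. -/
def IsAbsolute (Φ₀ : R → Matrix (Fin n₀) (Fin n₀) ℂ) (Φ : ∀ i, Matrix (Fin (n i)) (Fin (n i)) ℂ) (g : Comparison n₀ R K w A)
    {r m : ℕ} (τ : Fin m → Fin k) (c : ℤ) (T : Form n₀ r n m ℚ) : Prop :=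
  ∀ ρ, ∃ T' : Form n₀ r n m ℚ, IsHodgeForm (Φ₀ ρ) Φ τ c T' ∧
    ∀ l, transport (g.g₀ ρ l) (g.g ρ l) (castForm (K l) T) = g.χ ρ l ^ c • castForm (K l) T'

/-- Fullness for `M_0`: all Hodge forms for `σ` (with Hodge operator `Ψ₀`) on the `V_0^r` are absolute Hodge. -/
def Full₀ (Ψ₀ : Matrix (Fin n₀) (Fin n₀) ℂ) (Φ₀ : R → Matrix (Fin n₀) (Fin n₀) ℂ) (g : Comparison n₀ R K w A) : Prop :=
  ∀ (r : ℕ) (q : ℤ) (v : (Fin r → Fin n₀) → ℚ), IsHodgeForm₀ Ψ₀ q v → IsAbsolute₀ Φ₀ g q v

/-- Fullness for `M_0, M_1, …, M_k`: all Hodge forms for `σ` on the `V_0^r × V_(τ(1)) × … × V_(τ(m))` are absolute Hodge. -/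
def Full (Ψ₀ : Matrix (Fin n₀) (Fin n₀) ℂ) (Φ₀ : R → Matrix (Fin n₀) (Fin n₀) ℂ) (Φ : ∀ i, Matrix (Fin (n i)) (Fin (n i)) ℂ)
    (g : Comparison n₀ R K w A) : Prop :=
  ∀ (r m : ℕ) (τ : Fin m → Fin k) (c : ℤ) (T : Form n₀ r n m ℚ), IsHodgeForm Ψ₀ Φ τ c T → IsAbsolute Φ₀ Φ g τ c T

end

/-- For all Hodge structures `H_i` with forms `A_i` on the fibres over `x_i = b_i^(-t_i)` (with the part of type `(w_i, 0)` given by the
period vector), and for all `V_0` of small level: all Hodge forms are generated by Hodge forms on `V_0^r` and the `A_i`, and fullness for `M_0, M_1, …, M_k` is equivalent to fullness for `M_0`. -/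
def Good {k e : ℕ} {G : Fin k → GSystem} {n : Fin k → ℕ} (F : ∀ i, Periods (G i) (n i) e) (w b t : Fin k → ℕ) : Prop :=
  ∀ (A : ∀ i, Matrix (Fin (n i)) (Fin (n i)) ℚ) (H : ∀ i, ℕ → Submodule ℂ (Fin (n i) → ℂ)), IsFibre F w b t A H →
    ∀ Φ : ∀ i, Matrix (Fin (n i)) (Fin (n i)) ℂ, (∀ i, IsHodgeOperator (w i) (H i) (Φ i)) →
    ∀ (n₀ : ℕ) (Ψ₀ : Matrix (Fin n₀) (Fin n₀) ℂ), HasSmallLevel w Ψ₀ → AllGenerated Ψ₀ w A Φ ∧
      ∀ (R Λ : Type) (K : Λ → Type) [∀ l, Field (K l)] [∀ l, Algebra ℚ (K l)] (Φ₀ : R → Matrix (Fin n₀) (Fin n₀) ℂ)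
        (g : Comparison n₀ R K w A), Full Ψ₀ Φ₀ Φ g ↔ Full₀ Ψ₀ Φ₀ g

/-- **The theorem.** -/
theorem result (k e : ℕ) (G : Fin k → GSystem) (n : Fin k → ℕ) (b : Fin k → ℕ) (hb : ∀ i, 2 ≤ b i) :
    ∃ C : ℝ, 0 ≤ C ∧ ∀ F : ∀ i, Periods (G i) (n i) e, ∀ w : Fin k → ℕ, ∀ N : ℕ, 2 ≤ N →
      (({t : Fin k → ℕ | (∀ i, 1 ≤ t i ∧ t i ≤ N) ∧ ¬ Good F w b t}.ncard : ℕ) : ℝ) * N ≤
        C * (N : ℝ) ^ k * Real.log N := by
  classical
  obtain ⟨C, hC, hcount⟩ := count_level e G n b hb
  refine ⟨C, hC, ?_⟩
  intro F w N hN
  refine hcount F w N hN _ fun t ht => ⟨ht.1, fun hgood => ht.2 ?_⟩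
  intro A H hF Φ hop n₀ Ψ₀ hlev
  have hH : ∀ i, IsHodge (w i) (A i) (H i) := fun i => (hF i).2.1
  have hΦ := fun i => (hH i).hs.op (hop i)
  have hgen := generated_of hH (hgood A H hF n₀ Ψ₀ hlev) hop
  refine ⟨hgen, ?_⟩
  intro R Λ K _ _ Φ₀ g
  constructor
  · -- forms without the other variables
    intro h r q v hv ρ
    obtain ⟨T', h1, h2⟩ := h r 0 Fin.elim0 q (fun a _ => v a) (by
      refine ⟨fun a I _ l => Fin.elim0 l, ?_⟩
      funext a I
      unfold derivation
      rw [Finset.univ_eq_empty (α := Fin 0), Finset.sum_empty, add_zero]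
      exact hv a) ρ
    refine ⟨fun a => T' a Fin.elim0, ?_, fun l => ?_⟩
    · intro a
      have h3 := congrFun (congrFun h1.2 a) Fin.elim0
      unfold derivation at h3
      rw [Finset.univ_eq_empty (α := Fin 0), Finset.sum_empty, add_zero] at h3
      exact h3
    · funext a
      have h3 := congrFun (congrFun (h2 l) a) Fin.elim0
      refine Eq.trans ?_ h3
      unfold transport transport₀
      refine Finset.sum_congr rfl fun b _ => ?_
      rw [Fintype.sum_unique]
      simp [castForm, castForm₀]
  · intro h0 r m τ c T hT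
    have h1 := hgen r m τ c T hT
    clear hT
    intro ρ
    induction h1 using Submodule.span_induction with
    | mem x hx =>
      obtain ⟨s, e', c', v, hc', hv, rfl⟩ := hx
      obtain ⟨v', hv', hgv⟩ := h0 r _ v hv ρ
      refine ⟨_, product_hodge hΦ e' c' hc' hv', fun l => ?_⟩
      rw [transport_product (μ := fun i => g.χ ρ l ^ w i) (g.respects ρ l) e' c' v, hgv l]
      have hne := g.ne ρ l
      set χ := g.χ ρ l with hχ
      funext a I
      show χ ^ (c - ∑ l, (w (c' l) : ℤ)) * castForm₀ (K l) v' a *
        ((∏ l, χ ^ w (c' l)) * algebraMap ℚ (K l) (pairing A e' c' I)) =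
        χ ^ c * algebraMap ℚ (K l) (v' a * pairing A e' c' I)
      have e1 : (∏ l, χ ^ w (c' l)) = χ ^ (∑ l, (w (c' l) : ℤ)) := by
        rw [Finset.prod_pow_eq_pow_sum, ← zpow_natCast]
        push_cast
        rfl
      rw [e1, map_mul]
      have e2 : χ ^ c = χ ^ (c - ∑ l, (w (c' l) : ℤ)) * χ ^ (∑ l, (w (c' l) : ℤ)) := by
        rw [← zpow_add₀ hne]
        congr 1
        ring
      rw [e2]
      show _ = _ * (castForm₀ (K l) v' a * _)
      ring
    | zero =>
      refine ⟨0, hodgeForm_zero, fun l => ?_⟩
      rw [castForm_zero, transport_zero, smul_zero]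
    | add x y _ _ hx hy =>
      obtain ⟨T₁, h1, h2⟩ := hx
      obtain ⟨T₂, h1', h2'⟩ := hy
      refine ⟨T₁ + T₂, hodgeForm_add h1 h1', fun l => ?_⟩
      rw [castForm_add, transport_add, h2, h2', castForm_add, smul_add]
    | smul q x _ hx =>
      obtain ⟨T₁, h1, h2⟩ := hx
      refine ⟨q • T₁, hodgeForm_smul q h1, fun l => ?_⟩
      rw [castForm_smul, transport_smul, h2, castForm_smul, smul_comm]

end Pool.Agent.Results.MP_0da4e0_ag.SmallLevelAndFibresAtPowers
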